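import Pool.Agent.Lib.MP_eee7a8_ag.TB.IfaceB

/-!
# TAGBR Part B: module FIN (finitely many strands separate two cusps)
-/

open Matrix

namespace Pool.Agent.Lib.MP_eee7a8_ag.TB.PB.H65

/-- The polar form. -/
def pol (f : QF) (x y : Cusp) : ℤ :=
  2 * f.a * x.x * y.x + f.b * (x.x * y.y + x.y * y.x) + 2 * f.c * x.y * y.y

theorem dt_disc (f : QF) (x y : Cusp) :
    dt x y ^ 2 * f.disc = pol f x y ^ 2 - 4 * (f.ev x * f.ev y) := by
  unfold dt QF.disc pol QF.ev; ring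

theorem dt_a (f : QF) (x y : Cusp) :
    dt x y ^ 2 * f.a = y.y ^ 2 * f.ev x - y.y * x.y * pol f x y + x.y ^ 2 * f.ev y := by
  unfold dt pol QF.ev; ring

theorem dt_b (f : QF) (x y : Cusp) :
    dt x y ^ 2 * f.b = -2 * y.y * y.x * f.ev x + (y.y * x.x + x.y * y.x) * pol f x y
      - 2 * x.y * x.x * f.ev y := by
  unfold dt pol QF.ev; ring

theorem dt_c (f : QF) (x y : Cusp) :
    dt x y ^ 2 * f.c = y.x ^ 2 * f.ev x - y.x * x.x * pol f x y + x.x ^ 2 * f.ev y := by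
  unfold dt pol QF.ev; ring

theorem bnd_sq (b K : ℤ) (h : b ^ 2 ≤ K) : -K ≤ b ∧ b ≤ K := by
  have h1 : b ≤ b ^ 2 := by nlinarith [mul_self_nonneg (b - 1), mul_self_nonneg b, Int.le_self_sq b]
  have h2 : -b ≤ b ^ 2 := by
    have := Int.le_self_sq (-b)
    rwa [neg_sq] at this
  constructor <;> linarith

theorem bnd_mul (a b K : ℤ) (h : 4 * -(a * b) ≤ K) (hab : a * b < 0) :
    (-K ≤ a ∧ a ≤ K) ∧ (-K ≤ b ∧ b ≤ K) := by
  have h0 : |a * b| = -(a * b) := abs_of_neg hab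
  have ha : a ≠ 0 := by rintro rfl; simp at hab
  have hb : b ≠ 0 := by rintro rfl; simp at hab
  have ha1 : 1 ≤ |a| := Int.one_le_abs ha
  have hb1 : 1 ≤ |b| := Int.one_le_abs hb
  rw [abs_mul] at h0
  have h2 : |a| ≤ K := by nlinarith
  have h3 : |b| ≤ K := by nlinarith
  exact ⟨abs_le.1 h2, abs_le.1 h3⟩

theorem fin : FIN_S := by
  intro G S hS x y
  by_cases hxy : x = y
  · have : {f | f ∈ S ∧ f.ev x * f.ev y < 0} = ∅ := by
      ext f
      simp only [Set.mem_setOf_eq, Set.mem_empty_iff_false, iff_false, not_and, not_lt]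
      intro _
      rw [hxy]
      exact mul_self_nonneg _
    rw [this]
    exact Set.finite_empty
  have hd : dt x y ^ 2 ≠ 0 := pow_ne_zero 2 (dt_ne_zero hxy)
  have hd0 : 0 ≤ dt x y ^ 2 := sq_nonneg _
  obtain ⟨N, hN⟩ := hS.bdd
  let K := dt x y ^ 2 * N
  let B : Set (ℤ × ℤ × ℤ) := Set.Icc (-K) K ×ˢ (Set.Icc (-K) K ×ˢ Set.Icc (-K) K)
  have hB : B.Finite := (Set.finite_Icc _ _).prod ((Set.finite_Icc _ _).prod (Set.finite_Icc _ _))
  let φ : QF → ℤ × ℤ × ℤ := fun f => (f.ev x, pol f x y, f.ev y)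
  refine Set.Finite.of_finite_image (f := φ) (hB.subset ?_) ?_
  · rintro _ ⟨f, ⟨hf, hlt⟩, rfl⟩
    have h1 := dt_disc f x y
    have h2 : dt x y ^ 2 * f.disc ≤ K := mul_le_mul_of_nonneg_left (hN f hf) hd0
    have h3 : pol f x y ^ 2 ≤ K := by linarith
    have h4 : 4 * -(f.ev x * f.ev y) ≤ K := by
      have := sq_nonneg (pol f x y)
      linarith
    have h5 := bnd_sq _ _ h3
    have h6 := bnd_mul _ _ _ h4 hlt
    exact ⟨h6.1, h5, h6.2⟩
  · intro f _ f' _ hff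
    simp only [φ, Prod.mk.injEq] at hff
    obtain ⟨h1, h2, h3⟩ := hff
    ext
    · apply mul_left_cancel₀ hd
      rw [dt_a, dt_a, h1, h2, h3]
    · apply mul_left_cancel₀ hd
      rw [dt_b, dt_b, h1, h2, h3]
    · apply mul_left_cancel₀ hd
      rw [dt_c, dt_c, h1, h2, h3]

end Pool.Agent.Lib.MP_eee7a8_ag.TB.PB.H65
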