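import Pool.Agent.Lib.MP_eee7a8_ag.TB.IfaceB

/-!
# TAGBR Part B: module RHO (coordinates along the axis of a hyperbolic element)
-/

open Matrix

namespace Pool.Agent.Lib.MP_eee7a8_ag.TB.PB.H65

theorem trace_eq (h : SLZ) : h.1.trace = h.1 0 0 + h.1 1 1 := Matrix.trace_fin_two _

theorem r_ne {h : SLZ} (ht : 2 < h.1.trace) : h.1 1 0 ≠ 0 := by
  intro hr
  have hs := side_ne_zero (lt_of_lt_of_le ht (le_abs_self _)) infty
  apply hs
  unfold side infty
  simp [hr]

theorem sqd_sq {h : SLZ} (ht : 2 < h.1.trace) : sqd h ^ 2 = (h.1.trace : ℝ) ^ 2 - 4 := by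
  unfold sqd
  apply Real.sq_sqrt
  have : (2 : ℝ) < h.1.trace := by exact_mod_cast ht
  nlinarith

theorem sqd_pos {h : SLZ} (ht : 2 < h.1.trace) : 0 < sqd h := by
  unfold sqd
  apply Real.sqrt_pos.2
  have : (2 : ℝ) < h.1.trace := by exact_mod_cast ht
  nlinarith

theorem detR (h : SLZ) : (h.1 0 0 : ℝ) * h.1 1 1 - h.1 0 1 * h.1 1 0 = 1 := by
  have := det_eq h
  exact_mod_cast this

theorem trR (h : SLZ) : (h.1.trace : ℝ) = h.1 0 0 + h.1 1 1 := by
  rw [trace_eq]; push_cast; ring

theorem S4 {h : SLZ} (ht : 2 < h.1.trace) :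
    sqd h ^ 2 = ((h.1 0 0 : ℝ) - h.1 1 1) ^ 2 + 4 * (h.1 0 1 * h.1 1 0) := by
  have hq := sqd_sq ht
  rw [trR] at hq
  have hd := detR h
  rw [hq]; linear_combination 4 * hd

theorem side_albe {h : SLZ} (ht : 2 < h.1.trace) (v : Cusp) :
    (side h v : ℝ) = -(sqd h) * (al h v * be h v) := by
  have hr : (h.1 1 0 : ℝ) ≠ 0 := by exact_mod_cast r_ne ht
  have hs := (sqd_pos ht).ne'
  have h4 := S4 ht
  unfold al be side
  push_cast
  field_simp
  generalize sqd h = S at *
  generalize (h.1 0 0 : ℝ) = p at *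
  generalize (h.1 0 1 : ℝ) = q at *
  generalize (h.1 1 0 : ℝ) = r at *
  generalize (h.1 1 1 : ℝ) = s at *
  linear_combination ((v.y : ℝ) ^ 2) * h4

theorem dt_albe {h : SLZ} (ht : 2 < h.1.trace) (a c : Cusp) :
    (dt a c : ℝ) = al h a * be h c - be h a * al h c := by
  have hr : (h.1 1 0 : ℝ) ≠ 0 := by exact_mod_cast r_ne ht
  have hs := (sqd_pos ht).ne'
  unfold al be dt
  push_cast
  field_simp
  ring

theorem al_ne {h : SLZ} (ht : 2 < h.1.trace) (v : Cusp) : al h v ≠ 0 := by
  intro h0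
  have h1 := side_albe ht v
  rw [h0, zero_mul, mul_zero] at h1
  exact side_ne_zero (lt_of_lt_of_le ht (le_abs_self _)) v (by exact_mod_cast h1)

theorem be_ne {h : SLZ} (ht : 2 < h.1.trace) (v : Cusp) : be h v ≠ 0 := by
  intro h0
  have h1 := side_albe ht v
  rw [h0, mul_zero, mul_zero] at h1
  exact side_ne_zero (lt_of_lt_of_le ht (le_abs_self _)) v (by exact_mod_cast h1)

theorem lmd_gt {h : SLZ} (ht : 2 < h.1.trace) : 1 < lmd h := by
  have h1 := sqd_pos ht
  have h2 : (2 : ℝ) < h.1.trace := by exact_mod_cast ht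
  unfold lmd
  linarith

theorem al_smul {h : SLZ} (ht : 2 < h.1.trace) (v : Cusp) :
    al h (h • v) = eps h v * (lmd h * al h v) := by
  have hr : (h.1 1 0 : ℝ) ≠ 0 := by exact_mod_cast r_ne ht
  have h4 := S4 ht
  unfold al lmd
  rw [smul_x', smul_y', trR]
  push_cast
  field_simp
  generalize sqd h = S at *
  generalize (h.1 0 0 : ℝ) = p at *
  generalize (h.1 0 1 : ℝ) = q at *
  generalize (h.1 1 0 : ℝ) = r at *
  generalize (h.1 1 1 : ℝ) = s at *
  linear_combination (-(eps h v * v.y : ℝ)) * h4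

theorem be_smul' {h : SLZ} (ht : 2 < h.1.trace) (v : Cusp) :
    be h (h • v) = eps h v * ((((h.1 0 0 : ℝ) + h.1 1 1 - sqd h) / 2) * be h v) := by
  have hr : (h.1 1 0 : ℝ) ≠ 0 := by exact_mod_cast r_ne ht
  have hs := (sqd_pos ht).ne'
  have h4 := S4 ht
  unfold be
  rw [smul_x', smul_y']
  push_cast
  field_simp
  generalize sqd h = S at *
  generalize (h.1 0 0 : ℝ) = p at *
  generalize (h.1 0 1 : ℝ) = q at *
  generalize (h.1 1 0 : ℝ) = r at *
  generalize (h.1 1 1 : ℝ) = s at *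
  linear_combination ((eps h v * v.y : ℝ)) * h4

theorem lmd_mul {h : SLZ} (ht : 2 < h.1.trace) :
    lmd h * (((h.1 0 0 : ℝ) + h.1 1 1 - sqd h) / 2) = 1 := by
  have hq := sqd_sq ht
  rw [trR] at hq
  unfold lmd
  rw [trR]
  linear_combination (-1 / 4 : ℝ) * hq

theorem be_smul {h : SLZ} (ht : 2 < h.1.trace) (v : Cusp) :
    lmd h * be h (h • v) = eps h v * be h v := by
  rw [be_smul' ht]
  linear_combination (eps h v * be h v) * lmd_mul ht

theorem rho_ne {h : SLZ} (ht : 2 < h.1.trace) (v : Cusp) : rho h v ≠ 0 :=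
  div_ne_zero (al_ne ht v) (be_ne ht v)

theorem side_rho {h : SLZ} (ht : 2 < h.1.trace) (v : Cusp) : side h v < 0 ↔ 0 < rho h v := by
  have h1 := side_albe ht v
  have hS := sqd_pos ht
  have hb := be_ne ht v
  have hb2 : 0 < be h v ^ 2 := by positivity
  have h2 : (side h v : ℝ) = -(sqd h * be h v ^ 2 * rho h v) := by
    rw [h1]
    unfold rho
    field_simp
  have h3 : side h v < 0 ↔ (side h v : ℝ) < 0 := by
    constructor
    · intro h; exact_mod_cast h
    · intro h; exact_mod_cast h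
  rw [h3, h2, neg_lt_zero]
  exact mul_pos_iff_of_pos_left (mul_pos hS hb2)

theorem rho_smul {h : SLZ} (ht : 2 < h.1.trace) (v : Cusp) :
    rho h (h • v) = lmd h ^ 2 * rho h v := by
  have h1 := al_smul ht v
  have h2 := be_smul ht v
  have hl : lmd h ≠ 0 := by have := lmd_gt ht; positivity
  have hb := be_ne ht v
  have hb' := be_ne ht (h • v)
  have he : (eps h v : ℝ) ≠ 0 := by exact_mod_cast eps_ne_zero h v
  unfold rho
  rw [div_eq_iff hb', h1]
  field_simp
  linear_combination (-(al h v)) * h2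

theorem dt_rho {h : SLZ} (ht : 2 < h.1.trace) (a c : Cusp) :
    (dt a c : ℝ) = be h a * be h c * (rho h a - rho h c) := by
  have ha := be_ne ht a
  have hc := be_ne ht c
  rw [dt_albe ht]
  unfold rho
  field_simp

theorem rho_inj {h : SLZ} (ht : 2 < h.1.trace) {a b : Cusp} (hab : rho h a = rho h b) :
    a = b := by
  have h1 := dt_rho ht a b
  rw [hab, sub_self, mul_zero] at h1
  exact dt_eq_zero.1 (by exact_mod_cast h1)

theorem rho_main : RHO_S := by
  intro h ht
  refine ⟨lmd_gt ht, be_ne ht, rho_ne ht, side_rho ht, rho_smul ht, fun a b => rho_inj ht, ?_⟩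
  intro a b c d
  have hbe : 0 < (be h a * be h b * be h c * be h d) ^ 2 := by
    have := be_ne ht a
    have := be_ne ht b
    have := be_ne ht c
    have := be_ne ht d
    positivity
  have h1 : Cross a b c d ↔ (((dt a c * dt b c * (dt a d * dt b d) : ℤ) : ℝ) < 0) := by
    unfold Cross
    constructor
    · intro h; exact_mod_cast h
    · intro h; exact_mod_cast h
  rw [h1]
  push_cast
  rw [dt_rho ht, dt_rho ht, dt_rho ht, dt_rho ht]
  have h2 : be h a * be h c * (rho h a - rho h c) * (be h b * be h c * (rho h b - rho h c)) *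
      (be h a * be h d * (rho h a - rho h d) * (be h b * be h d * (rho h b - rho h d))) =
      (be h a * be h b * be h c * be h d) ^ 2 *
        (((rho h a - rho h c) * (rho h b - rho h c)) *
          ((rho h a - rho h d) * (rho h b - rho h d))) := by ring
  rw [h2]
  constructor
  · intro h
    by_contra hc
    push Not at hc
    exact absurd h (not_lt.2 (mul_nonneg hbe.le hc))
  · intro h
    exact mul_neg_of_pos_of_neg hbe h

theorem rho : RHO_S := rho_main

end Pool.Agent.Lib.MP_eee7a8_ag.TB.PB.H65
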