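import Pool.Agent.Lib.MP_eee7a8_ag.TB.H65.Fin

/-!
# TAGBR Part B: module NI (no invariant chain)
-/

open Matrix

namespace Pool.Agent.Lib.MP_eee7a8_ag.TB.PB.H65

/-! ### Finiteness of the edges crossing a pair -/

theorem arcF_inj {s t s' t' : Cusp} (h : s ≠ t) (h' : s' ≠ t') (he : arcF s t = arcF s' t') :
    s = s' ∧ t = t' := by
  have hz : ∀ v, (arcF s t).ev v = 0 → v = s ∨ v = t := by
    intro v hv
    rw [ev_arcF] at hv
    rcases mul_eq_zero.1 hv with h1 | h1
    · rcases mul_eq_zero.1 h1 with h2 | h2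
      · exact absurd (dt_eq_zero.1 h2) h
      · exact Or.inr (dt_eq_zero.1 h2).symm
    · exact Or.inl (dt_eq_zero.1 h1)
  have h1 : s' = s ∨ s' = t := hz s' (by rw [he, ev_arcF, dt_self]; ring)
  have h2 : t' = s ∨ t' = t := hz t' (by rw [he, ev_arcF, dt_self]; ring)
  rcases h1 with rfl | rfl
  · rcases h2 with rfl | rfl
    · exact absurd rfl h'
    · exact ⟨rfl, rfl⟩
  · rcases h2 with rfl | rfl
    · exfalso
      have ha := congrArg QF.a he
      have hb := congrArg QF.b he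
      have hc := congrArg QF.c he
      have hd := disc_arcF t' s'
      have hne : dt t' s' ^ 4 ≠ 0 := pow_ne_zero 4 (dt_ne_zero h)
      apply hne
      rw [← hd]
      simp only [arcF] at ha hb hc
      rw [dt_symm s' t'] at ha hb hc
      have ha0 : (arcF t' s').a = 0 := by simp only [arcF]; linarith
      have hb0 : (arcF t' s').b = 0 := by simp only [arcF]; linarith
      unfold QF.disc
      rw [ha0, hb0]; ring
    · exact absurd rfl h'

theorem edges_fin (D : ℤ) (hD : 0 < D) (a b : Cusp) :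
    {q : Cusp × Cusp | |dt q.1 q.2| = D ∧ Cross q.1 q.2 a b}.Finite := by
  let S : Set QF := {f | ∃ c d, |dt c d| = D ∧ f = arcF c d}
  have hS : SFam ⊥ S := by
    constructor
    · rintro f ⟨c, d, h1, rfl⟩
      rw [disc_arcF]
      have : dt c d ≠ 0 := by intro h0; rw [h0, abs_zero] at h1; omega
      positivity
    · intro g hg f hf
      rw [Subgroup.mem_bot.1 hg, act_one]; exact hf
    · refine ⟨D ^ 4, ?_⟩
      rintro f ⟨c, d, h1, rfl⟩
      rw [disc_arcF, ← h1, show |dt c d| ^ 4 = (|dt c d| ^ 2) ^ 2 by ring, sq_abs]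
      exact le_of_eq (by ring)
  have h1 := fin ⊥ S hS a b
  refine Set.Finite.of_finite_image (f := fun q : Cusp × Cusp => arcF q.1 q.2) (h1.subset ?_) ?_
  · rintro _ ⟨q, ⟨h2, h3⟩, rfl⟩
    refine ⟨⟨q.1, q.2, h2, rfl⟩, ?_⟩
    have h0 : 0 < dt q.1 q.2 ^ 2 := by
      have : dt q.1 q.2 ≠ 0 := dt_ne_zero h3.ne.1
      positivity
    rw [ev_arcF, ev_arcF, dt_symm a q.1, dt_symm b q.1]
    unfold Cross at h3
    have : dt q.1 q.2 * dt q.2 a * -dt q.1 a * (dt q.1 q.2 * dt q.2 b * -dt q.1 b) =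
      dt q.1 q.2 ^ 2 * (dt q.1 a * dt q.2 a * (dt q.1 b * dt q.2 b)) := by ring
    rw [this]
    exact mul_neg_of_pos_of_neg h0 h3
  · rintro ⟨s, t⟩ ⟨_, h2⟩ ⟨s', t'⟩ ⟨_, h3⟩ he
    obtain ⟨h4, h5⟩ := arcF_inj h2.ne.1 h3.ne.1 he
    exact Prod.ext h4 h5

/-! ### Paths -/

theorem path_aux {R : Cusp → Cusp → Prop} {a : Cusp} (P : Cusp → Prop)
    (H : ∀ x y, R x y → Relation.EqvGen R a x → (P x ↔ P y)) {u v : Cusp}
    (huv : Relation.EqvGen R u v) : Relation.EqvGen R a u → (P u ↔ P v) := by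
  induction huv with
  | rel x y h => exact fun hx => H x y h hx
  | refl x => exact fun _ => Iff.rfl
  | symm x y h ih => exact fun hy => (ih (hy.trans _ _ _ (h.symm _ _))).symm
  | trans x y z h1 h2 ih1 ih2 => exact fun hx => (ih1 hx).trans (ih2 (hx.trans _ _ _ h1))

theorem path_cross {R : Cusp → Cusp → Prop} (hR : ∀ x y, R x y → R y x) {a u v : Cusp}
    (f : Cusp → ℝ) (t : ℝ) (hau : Relation.EqvGen R a u) (huv : Relation.EqvGen R u v)
    (h1 : f u ≤ t) (h2 : t < f v) :
    ∃ d d', R d d' ∧ Relation.EqvGen R a d ∧ Relation.EqvGen R a d' ∧ f d ≤ t ∧ t < f d' := by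
  by_contra hc
  push Not at hc
  have key := path_aux (R := R) (a := a) (fun z => f z ≤ t) (by
    intro x y hxy hx
    have hy : Relation.EqvGen R a y := hx.trans _ _ _ (Relation.EqvGen.rel _ _ hxy)
    constructor
    · intro h; exact hc x y hxy hx hy h
    · intro h; exact hc y x (hR _ _ hxy) hy hx h) huv hau
  exact absurd (key.1 h1) (not_le.2 h2)

/-! ### The parabolic coordinate -/

theorem parab {x w w' y : Cusp} {γ : SLZ} (hx : γ • x = x) (hw : γ • w = w') (hne : w ≠ w')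
    (hwx : w ≠ x) (hyx : y ≠ x) :
    ∃ k : ℤ, γ ^ k • y = w ∨ Cross x (γ ^ k • y) w w' := by
  obtain ⟨a, b, hab⟩ := x.cop
  let β : Cusp → ℝ := fun z => (dt x z : ℝ)
  let t : Cusp → ℝ := fun z => ((a * z.x + b * z.y : ℤ) : ℝ) / (dt x z : ℝ)
  have hβ : ∀ z, z ≠ x → (dt x z : ℝ) ≠ 0 := by
    intro z hz
    have := dt_ne_zero hz.symm
    exact_mod_cast this
  -- the determinant in the coordinate
  have key2 : ∀ z z', z ≠ x → z' ≠ x → (dt z z' : ℝ) = β z * β z' * (t z - t z') := by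
    intro z z' hz hz'
    have h1 := hβ z hz
    have h2 := hβ z' hz'
    have h3 : dt z z' = (a * z.x + b * z.y) * dt x z' - dt x z * (a * z'.x + b * z'.y) := by
      unfold dt
      linear_combination (-(z.x * z'.y - z.y * z'.x)) * hab
    simp only [β, t]
    rw [h3]
    push_cast
    field_simp
  -- translation
  have key1 : ∃ n : ℝ, ∀ z, z ≠ x → t (γ • z) = t z + n := by
    have hxx : (γ • x).x = x.x := by rw [hx]
    have hxy : (γ • x).y = x.y := by rw [hx]
    rw [smul_x'] at hxx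
    rw [smul_y'] at hxy
    have he := eps_sq γ x
    refine ⟨((eps γ x * (a * (-(γ.1 0 0) * b + γ.1 0 1 * a) +
      b * (-(γ.1 1 0) * b + γ.1 1 1 * a)) : ℤ) : ℝ), ?_⟩
    intro z hz
    have h1 : dt x (γ • z) = eps γ x * eps γ z * dt x z := by
      conv_lhs => rw [← hx]
      exact dt_smul γ x z
    have h2 : a * (γ • z).x + b * (γ • z).y = eps γ z * (eps γ x * (a * z.x + b * z.y) +
        (a * (-(γ.1 0 0) * b + γ.1 0 1 * a) + b * (-(γ.1 1 0) * b + γ.1 1 1 * a)) * dt x z) := by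
      rw [smul_x', smul_y']
      have e1 : γ.1 0 0 * x.x + γ.1 0 1 * x.y = eps γ x * x.x := by
        linear_combination (-(γ.1 0 0 * x.x + γ.1 0 1 * x.y)) * he + (eps γ x) * hxx
      have e2 : γ.1 1 0 * x.x + γ.1 1 1 * x.y = eps γ x * x.y := by
        linear_combination (-(γ.1 1 0 * x.x + γ.1 1 1 * x.y)) * he + (eps γ x) * hxy
      have z1 : z.x = (a * z.x + b * z.y) * x.x - dt x z * b := by
        unfold dt; linear_combination (-z.x) * hab
      have z2 : z.y = (a * z.x + b * z.y) * x.y + dt x z * a := by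
        unfold dt; linear_combination (-z.y) * hab
      generalize a * z.x + b * z.y = A at *
      generalize dt x z = B at *
      rw [z1, z2]
      linear_combination (eps γ z * a * A) * e1 + (eps γ z * b * A) * e2 +
        (eps γ z * eps γ x * A) * hab
    have h3 : (eps γ z : ℝ) ≠ 0 := by exact_mod_cast eps_ne_zero γ z
    have h4 : (eps γ x : ℝ) ≠ 0 := by exact_mod_cast eps_ne_zero γ x
    have h5 := hβ z hz
    have h6 : (eps γ x : ℝ) * eps γ x = 1 := by exact_mod_cast he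
    simp only [t]
    rw [h1, h2]
    generalize (a * (-(γ.1 0 0) * b + γ.1 0 1 * a) + b * (-(γ.1 1 0) * b + γ.1 1 1 * a)) = m at *
    generalize (a * z.x + b * z.y) = A at *
    push_cast
    rw [div_eq_iff (by positivity)]
    field_simp
    linear_combination (-(m : ℝ) * (dt x z : ℝ)) * h6
  obtain ⟨n, hn⟩ := key1
  have hfix : ∀ k : ℤ, γ ^ k • x = x := by
    intro k
    have h1 : γ ∈ MulAction.stabilizer SLZ x := hx
    exact Subgroup.zpow_mem _ h1 k
  have hoff : ∀ (k : ℤ) z, z ≠ x → γ ^ k • z ≠ x := by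
    intro k z hz h0
    apply hz
    have := hfix k
    rw [← this] at h0
    exact (smul_left_cancel _ h0)
  have key3 : ∀ (z : Cusp), z ≠ x → ∀ k : ℤ, t (γ ^ k • z) = t z + k * n := by
    intro z hz k
    induction k using Int.induction_on with
    | zero => simp
    | succ i ih =>
      rw [add_comm (i : ℤ) 1, _root_.zpow_add, _root_.zpow_one, mul_smul, hn _ (hoff _ z hz), ih]
      push_cast; ring
    | pred i ih =>
      have h1 := hn _ (hoff (-(i : ℤ) - 1) z hz)
      have h2 : γ • γ ^ (-(i : ℤ) - 1) • z = γ ^ (-(i : ℤ)) • z := by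
        rw [← mul_smul, ← _root_.zpow_one_add]
        congr 2
        ring
      rw [h2, ih] at h1
      push_cast at h1 ⊢
      linarith
  have hw'x : w' ≠ x := by
    rw [← hw]
    have := hoff 1 w hwx
    rwa [zpow_one] at this
  have htw' : t w' = t w + n := by rw [← hw]; exact hn w hwx
  have hn0 : n ≠ 0 := by
    intro h0
    apply hne
    apply dt_eq_zero.1
    have := key2 w w' hwx hw'x
    rw [htw', h0, add_zero, sub_self, mul_zero] at this
    exact_mod_cast this
  let s : ℝ := (t y - t w) / n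
  let k : ℤ := -⌊s⌋
  have hs1 : 0 ≤ s + k := by
    have := Int.floor_le s
    simp only [k]; push_cast; linarith
  have hs2 : s + k < 1 := by
    have := Int.lt_floor_add_one s
    simp only [k]; push_cast; linarith
  have hty : t (γ ^ k • y) = t w + (s + k) * n := by
    rw [key3 y hyx]
    have : s * n = t y - t w := div_mul_cancel₀ _ hn0
    linear_combination (-1 : ℝ) * this
  refine ⟨k, ?_⟩
  have hy' := hoff k y hyx
  rcases eq_or_lt_of_le hs1 with h0 | h0
  · left
    apply dt_eq_zero.1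
    have := key2 _ w hy' hwx
    rw [hty, ← h0] at this
    have h3 : ((dt (γ ^ k • y) w : ℤ) : ℝ) = 0 := by rw [this]; ring
    exact_mod_cast h3
  · right
    have h1 : ((dt x w * dt (γ ^ k • y) w * (dt x w' * dt (γ ^ k • y) w') : ℤ) : ℝ) < 0 := by
      push_cast
      rw [key2 _ w hy' hwx, key2 _ w' hy' hw'x, hty, htw']
      have e : β w * (β (γ ^ k • y) * β w * (t w + (s + k) * n - t w)) *
          (β w' * (β (γ ^ k • y) * β w' * (t w + (s + k) * n - (t w + n)))) =
          (β w * β (γ ^ k • y) * β w' * n) ^ 2 * ((s + k) * (s + k - 1)) := by ring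
      have e' : (dt x w : ℝ) * (β (γ ^ k • y) * β w * (t w + (s + k) * n - t w)) *
          (dt x w' * (β (γ ^ k • y) * β w' * (t w + (s + k) * n - (t w + n)))) =
          (β w * β (γ ^ k • y) * β w' * n) ^ 2 * ((s + k) * (s + k - 1)) := e
      rw [e']
      have h2 : β w ≠ 0 := hβ w hwx
      have h3 : β w' ≠ 0 := hβ w' hw'x
      have h4 : β (γ ^ k • y) ≠ 0 := hβ _ hy'
      have h5 : 0 < (β w * β (γ ^ k • y) * β w' * n) ^ 2 := by positivity
      have h6 : (s + k) * (s + k - 1) < 0 := mul_neg_of_pos_of_neg h0 (by linarith)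
      exact mul_neg_of_pos_of_neg h5 h6
    unfold Cross
    exact_mod_cast h1

/-! ### The extreme neighbour -/

theorem extreme (f : Cusp → ℝ) (E : Cusp → Cusp → Prop) (Cc : Cusp → Prop) (x v : Cusp)
    (hfin : ∀ b b', {q : Cusp × Cusp | E q.1 q.2 ∧ Cross q.1 q.2 b b'}.Finite)
    (F2 : ∀ z z' c, Cc z → Cc z' → Cc c → (Cross z z' c v ↔ (f c - f z) * (f c - f z') < 0))
    (F3 : ∀ z z', Cc z → Cc z' → f z = f z' → z = z') (hx : Cc x)
    (hne : ∃ z, E z x ∧ Cc z ∧ f z < f x) :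
    ∃ w, E w x ∧ Cc w ∧ f w < f x ∧ ∀ z, E z x → Cc z → f w ≤ f z := by
  obtain ⟨z0, h1, h2, h3⟩ := hne
  let L : Set Cusp := {z | E z x ∧ Cc z ∧ f z ≤ f z0}
  have hL : L.Finite := by
    refine (((hfin z0 v).image Prod.fst).union (Set.finite_singleton z0)).subset ?_
    rintro z ⟨h4, h5, h6⟩
    rcases eq_or_lt_of_le h6 with h7 | h7
    · right; exact F3 _ _ h5 h2 h7
    · left
      refine ⟨(z, x), ⟨h4, ?_⟩, rfl⟩
      rw [F2 z x z0 h5 hx h2]
      exact mul_neg_of_pos_of_neg (by linarith) (by linarith)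
  obtain ⟨w, hw, hmin⟩ := Set.exists_min_image L f hL ⟨z0, h1, h2, le_refl _⟩
  refine ⟨w, hw.1, hw.2.1, lt_of_le_of_lt hw.2.2 h3, ?_⟩
  intro z hz hz'
  rcases le_or_gt (f z) (f z0) with h | h
  · exact hmin z ⟨hz, hz', h⟩
  · exact le_trans hw.2.2 h.le

theorem ge_iff {G : Subgroup SLZ} {p : Cusp × Cusp} {c d : Cusp} :
    Ge G (some p) c d ↔ SameArc G p.1 p.2 c d := by
  constructor
  · rintro ⟨q, h1, h2⟩
    rw [Option.some.injEq] at h1
    rw [h1]; exact h2
  · intro h; exact ⟨p, rfl, h⟩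

theorem ge_symm {G : Subgroup SLZ} {e : Option (Cusp × Cusp)} {c d : Cusp}
    (h : Ge G e c d) : Ge G e d c := by
  obtain ⟨p, h1, g, hg, h2 | h2⟩ := h
  · exact ⟨p, h1, g, hg, Or.inr h2⟩
  · exact ⟨p, h1, g, hg, Or.inl h2⟩

theorem same_side {s x y : ℤ} (hx : 0 < s * x) (hy : 0 < s * y) : 0 < x * y := by
  have h1 : 0 < (s * x) * (s * y) := mul_pos hx hy
  have h2 : (s * x) * (s * y) = s ^ 2 * (x * y) := by ring
  rw [h2] at h1
  exact pos_of_mul_pos_right h1 (sq_nonneg s)

/-! ### The outermost edge -/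

theorem visible_edge (f : Cusp → ℝ) (E : Cusp → Cusp → Prop) (Cc : Cusp → Prop) (v : Cusp)
    (hfin : ∀ b b', {q : Cusp × Cusp | E q.1 q.2 ∧ Cross q.1 q.2 b b'}.Finite)
    (F2 : ∀ z z' c, Cc z → Cc z' → Cc c → (Cross z z' c v ↔ (f c - f z) * (f c - f z') < 0))
    (F3 : ∀ z z', Cc z → Cc z' → f z = f z' → z = z')
    (F4 : ∀ z1 z2 z3 z4, Cc z1 → Cc z2 → Cc z3 → Cc z4 → (Cross z1 z2 z3 z4 ↔
      ((f z1 - f z3) * (f z2 - f z3)) * ((f z1 - f z4) * (f z2 - f z4)) < 0))
    (hnc : ∀ z1 z2 z3 z4, E z1 z2 → E z3 z4 → ¬ Cross z1 z2 z3 z4)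
    (hne : ∃ c c', E c c' ∧ Cc c ∧ Cc c' ∧ f c < f c') :
    ∃ c c', E c c' ∧ Cc c ∧ Cc c' ∧
      (∀ d d', E d d' → Cc d → Cc d' → ¬ (f d < f c ∧ f c < f d')) ∧
      (∀ d d', E d d' → Cc d → Cc d' → ¬ (f d < f c' ∧ f c' < f d')) := by
  obtain ⟨c0, c0', e0, k0, k0', l0⟩ := hne
  let F : Set (Cusp × Cusp) :=
    {q | E q.1 q.2 ∧ Cc q.1 ∧ Cc q.2 ∧ f q.1 ≤ f c0 ∧ f c0' ≤ f q.2}
  have hF : F.Finite := by
    refine (((hfin c0 v).union (hfin c0' v)).union (Set.finite_singleton (c0, c0'))).subset ?_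
    rintro ⟨d, d'⟩ ⟨h1, h2, h3, h4, h5⟩
    simp only at h1 h2 h3 h4 h5
    rcases eq_or_lt_of_le h4 with h6 | h6
    · rcases eq_or_lt_of_le h5 with h7 | h7
      · right
        rw [Set.mem_singleton_iff, Prod.mk.injEq]
        exact ⟨F3 _ _ h2 k0 h6, (F3 _ _ k0' h3 h7).symm⟩
      · left; right
        refine ⟨h1, ?_⟩
        rw [F2 d d' c0' h2 h3 k0']
        exact mul_neg_of_pos_of_neg (by linarith) (by linarith)
    · left; left
      refine ⟨h1, ?_⟩
      rw [F2 d d' c0 h2 h3 k0]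
      exact mul_neg_of_pos_of_neg (by linarith) (by linarith)
  obtain ⟨⟨c, c'⟩, ⟨h1, h2, h3, h4, h5⟩, hmax⟩ :=
    Set.exists_max_image F (fun q => f q.2 - f q.1) hF ⟨(c0, c0'), e0, k0, k0', le_refl _, le_refl _⟩
  simp only at h1 h2 h3 h4 h5 hmax
  refine ⟨c, c', h1, h2, h3, ?_, ?_⟩
  · rintro d d' g1 g2 g3 ⟨g4, g5⟩
    have g6 := hnc _ _ _ _ h1 g1
    rw [F4 c c' d d' h2 h3 g2 g3] at g6
    have g7 : 0 < (f c - f d) * (f c' - f d) := mul_pos (by linarith) (by linarith)
    have g8 : 0 ≤ (f c - f d') * (f c' - f d') := by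
      by_contra hcon
      push Not at hcon
      exact g6 (mul_neg_of_pos_of_neg g7 hcon)
    have g9 : f c' ≤ f d' := by
      by_contra hcon
      push Not at hcon
      have : (f c - f d') * (f c' - f d') < 0 :=
        mul_neg_of_neg_of_pos (by linarith) (by linarith)
      linarith
    have g10 := hmax (d, d') ⟨g1, g2, g3, by simp only; linarith, by simp only; linarith⟩
    simp only at g10
    linarith
  · rintro d d' g1 g2 g3 ⟨g4, g5⟩
    have g6 := hnc _ _ _ _ h1 g1
    rw [F4 c c' d d' h2 h3 g2 g3] at g6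
    have g7 : 0 < (f c - f d') * (f c' - f d') :=
      mul_pos_of_neg_of_neg (by linarith) (by linarith)
    have g8 : 0 ≤ (f c - f d) * (f c' - f d) := by
      by_contra hcon
      push Not at hcon
      exact g6 (mul_neg_of_neg_of_pos hcon g7)
    have g9 : f d ≤ f c := by
      by_contra hcon
      push Not at hcon
      have : (f c - f d) * (f c' - f d) < 0 :=
        mul_neg_of_neg_of_pos (by linarith) (by linarith)
      linarith
    have g10 := hmax (d, d') ⟨g1, g2, g3, by simp only; linarith, by simp only; linarith⟩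
    simp only at g10
    linarith

/-! ### The main argument -/

theorem ni (h1 : POS_S) (h2 : DENSE_S) : NI_S := by
  intro hT G hG p hAdm x y h hh htr hNCL hxe hns hnc hside a haa
  obtain ⟨T1, T2, T3, T4, T5, T6⟩ := hT G hG (some p) hAdm
  obtain ⟨P1, P2, P3, P4, P5, P6, P7⟩ := h1 h htr
  have hs : ∀ v, side h v ≠ 0 := fun v => side_ne_zero (lt_of_lt_of_le htr (le_abs_self _)) v
  have hC : ∀ z, Sim G (some p) a z → 0 < side h a * side h z := fun z hz => T5 h hNCL a z hz hs
  obtain ⟨v, hv⟩ : ∃ v, side h a * side h v < 0 := by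
    obtain ⟨⟨u, hu, _⟩, ⟨u', hu', _⟩⟩ := h2 h htr 0 1 (by norm_num)
    rcases lt_or_gt_of_ne (hs a) with h3 | h3
    · exact ⟨u', mul_neg_of_neg_of_pos h3 hu'⟩
    · exact ⟨u, mul_neg_of_pos_of_neg h3 hu⟩
  have F2 : ∀ z z' c, 0 < side h a * side h z → 0 < side h a * side h z' →
      0 < side h a * side h c →
      (Cross z z' c v ↔ (pos h c - pos h z) * (pos h c - pos h z') < 0) := by
    intro z z' c hz hz' hc
    rcases lt_or_gt_of_ne (hs a) with h3 | h3
    · exact P3 z z' c v (neg_of_mul_pos_right hz h3.le) (neg_of_mul_pos_right hz' h3.le)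
        (neg_of_mul_pos_right hc h3.le) (pos_of_mul_neg_right hv h3.le)
    · exact P4 z z' c v (pos_of_mul_pos_right hz h3.le) (pos_of_mul_pos_right hz' h3.le)
        (pos_of_mul_pos_right hc h3.le) (neg_of_mul_neg_right hv h3.le)
  have F3 : ∀ z z', 0 < side h a * side h z → 0 < side h a * side h z' →
      pos h z = pos h z' → z = z' := fun z z' hz hz' he => P6 z z' (same_side hz hz') he
  have F4 : ∀ z1 z2 z3 z4, 0 < side h a * side h z1 → 0 < side h a * side h z2 →
      0 < side h a * side h z3 → 0 < side h a * side h z4 → (Cross z1 z2 z3 z4 ↔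
      ((pos h z1 - pos h z3) * (pos h z2 - pos h z3)) *
        ((pos h z1 - pos h z4) * (pos h z2 - pos h z4)) < 0) := by
    intro z1 z2 z3 z4 g1 g2 g3 g4
    exact P7 z1 z2 z3 z4 (same_side g1 g2) (same_side g1 g3) (same_side g1 g4)
  have hm : ∀ m : ℤ, Sim G (some p) a (h ^ m • a) := by
    intro m
    induction m using Int.induction_on with
    | zero => rw [_root_.zpow_zero, one_smul]; exact Relation.EqvGen.refl _
    | succ i ih =>
      refine ih.trans _ _ _ ?_
      have := T1 (h ^ (i : ℤ)) (G.zpow_mem hh _) _ _ haa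
      rwa [← mul_smul, ← _root_.zpow_add_one] at this
    | pred i ih =>
      refine ih.trans _ _ _ (Relation.EqvGen.symm _ _ ?_)
      have := T1 (h ^ (-(i : ℤ) - 1)) (G.zpow_mem hh _) _ _ haa
      rwa [← mul_smul, ← _root_.zpow_add_one, sub_add_cancel] at this
  have hpm : ∀ m : ℤ, pos h (h ^ m • a) = pos h a + m := by
    intro m
    induction m using Int.induction_on with
    | zero => rw [_root_.zpow_zero, one_smul]; simp
    | succ i ih =>
      rw [add_comm (i : ℤ) 1, _root_.zpow_one_add, mul_smul, P1, ih]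
      push_cast; ring
    | pred i ih =>
      have g1 := P1 (h ^ (-(i : ℤ) - 1) • a)
      rw [← mul_smul, ← _root_.zpow_one_add, add_sub_cancel, ih] at g1
      push_cast at g1 ⊢
      linarith
  have hEs : ∀ c d, Ge G (some p) c d → Ge G (some p) d c := fun c d => ge_symm
  have hpne : p.1 ≠ p.2 := (hAdm p rfl).1.1
  have hfin : ∀ b b', {q : Cusp × Cusp | Ge G (some p) q.1 q.2 ∧ Cross q.1 q.2 b b'}.Finite := by
    intro b b'
    refine (edges_fin |dt p.1 p.2| (lt_of_lt_of_le one_pos (one_le_abs_dt hpne)) b b').subset ?_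
    rintro ⟨c, d⟩ ⟨g1, g2⟩
    refine ⟨?_, g2⟩
    obtain ⟨g, hg, ⟨e1, e2⟩ | ⟨e1, e2⟩⟩ := ge_iff.1 g1
    · simp only at e1 e2 ⊢
      rw [← e1, ← e2, abs_dt_smul]
    · simp only at e1 e2 ⊢
      rw [← e1, ← e2, abs_dt_smul, dt_abs_symm]
  have hpath : ∀ t : ℝ, ∃ d d', Ge G (some p) d d' ∧ Sim G (some p) a d ∧ Sim G (some p) a d' ∧
      pos h d ≤ t ∧ t < pos h d' := by
    intro t
    have g1 : pos h (h ^ (⌊t - pos h a⌋) • a) ≤ t := by
      rw [hpm]; have := Int.floor_le (t - pos h a); linarith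
    have g2 : t < pos h (h ^ (⌊t - pos h a⌋ + 1) • a) := by
      rw [hpm]; push_cast; have := Int.lt_floor_add_one (t - pos h a); linarith
    exact path_cross hEs (pos h) t (hm _)
      (Relation.EqvGen.trans _ _ _ (Relation.EqvGen.symm _ _ (hm _)) (hm _)) g1 g2
  have hpath' : ∀ t : ℝ, ∃ d d', Ge G (some p) d d' ∧ Sim G (some p) a d ∧ Sim G (some p) a d' ∧
      pos h d < t ∧ t ≤ pos h d' := by
    intro t
    have g1 : -(pos h (h ^ (⌊t - pos h a⌋ + 1) • a)) ≤ -t := by
      rw [hpm]; push_cast; have := Int.lt_floor_add_one (t - pos h a); linarith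
    have g2 : -t < -(pos h (h ^ (⌊t - pos h a⌋ - 1) • a)) := by
      rw [hpm]; push_cast; have := Int.floor_le (t - pos h a); linarith
    obtain ⟨d, d', e1, e2, e3, e4, e5⟩ := path_cross hEs (fun z => -(pos h z)) (-t) (hm _)
      (Relation.EqvGen.trans _ _ _ (Relation.EqvGen.symm _ _ (hm _)) (hm _)) g1 g2
    exact ⟨d', d, hEs _ _ e1, e3, e2, by linarith, by linarith⟩
  -- the outermost edge
  obtain ⟨c, c', hcc, hc, hc', vis, vis'⟩ := visible_edge (pos h) (Ge G (some p))
    (fun z => Sim G (some p) a z) v hfin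
    (fun z z' c g1 g2 g3 => F2 z z' c (hC _ g1) (hC _ g2) (hC _ g3))
    (fun z z' g1 g2 => F3 z z' (hC _ g1) (hC _ g2))
    (fun z1 z2 z3 z4 g1 g2 g3 g4 => F4 z1 z2 z3 z4 (hC _ g1) (hC _ g2) (hC _ g3) (hC _ g4))
    (fun z1 z2 z3 z4 g1 g2 => T3 z1 z2 g1 z3 z4 g2)
    (by
      obtain ⟨d, d', e1, e2, e3, e4, e5⟩ := hpath (pos h a)
      exact ⟨d, d', e1, e2, e3, by linarith⟩)
  -- a translate of `x` is visible
  obtain ⟨g1, hg1, hx1, hx2⟩ : ∃ g1 ∈ G, Sim G (some p) a (g1 • x) ∧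
      (∀ d d', Ge G (some p) d d' → Sim G (some p) a d → Sim G (some p) a d' →
        ¬ (pos h d < pos h (g1 • x) ∧ pos h (g1 • x) < pos h d')) := by
    obtain ⟨g, hg, hgg⟩ := ge_iff.1 hcc
    obtain ⟨g0, hg0, hgx⟩ := hxe
    refine ⟨g * g0⁻¹, G.mul_mem hg (G.inv_mem hg0), ?_⟩
    have hcase : (g * g0⁻¹) • x = c ∨ (g * g0⁻¹) • x = c' := by
      rcases hgx with rfl | rfl <;> rw [mul_smul, inv_smul_smul] <;>
        rcases hgg with ⟨e1, e2⟩ | ⟨e1, e2⟩
      · exact Or.inl e1
      · exact Or.inr e1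
      · exact Or.inr e2
      · exact Or.inl e2
    rcases hcase with e | e <;> rw [e]
    · exact ⟨hc, vis⟩
    · exact ⟨hc', vis'⟩
  have hns1 : ¬ Sim G (some p) (g1 • x) (g1 • y) := by
    intro hcon
    apply hns
    have := T1 g1⁻¹ (G.inv_mem hg1) _ _ hcon
    rwa [inv_smul_smul, inv_smul_smul] at this
  have hnc1 := T2 g1 hg1 _ _ hnc
  have hside1 : ∀ g ∈ G, 0 < side h (g • g1 • x) * side h (g • g1 • y) := by
    intro g hg
    have := hside (g * g1) (G.mul_mem hg hg1)
    rwa [mul_smul, mul_smul] at this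
  generalize g1 • x = X at *
  generalize g1 • y = Y at *
  clear hside hnc hns hxe
  -- neighbours on both sides
  have hXN := hC X hx1
  obtain ⟨w, hw1, hw2, hw3, hw4⟩ := extreme (pos h) (Ge G (some p))
    (fun z => Sim G (some p) a z) X v hfin
    (fun z z' c g1 g2 g3 => F2 z z' c (hC _ g1) (hC _ g2) (hC _ g3))
    (fun z z' g1 g2 => F3 z z' (hC _ g1) (hC _ g2)) hx1
    (by
      obtain ⟨d, d', e1, e2, e3, e4, e5⟩ := hpath' (pos h X)
      have e6 : pos h X = pos h d' := by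
        rcases eq_or_lt_of_le e5 with e6 | e6
        · exact e6
        · exact absurd ⟨e4, e6⟩ (hx2 d d' e1 e2 e3)
      have e7 := F3 X d' hXN (hC _ e3) e6
      rw [← e7] at e1
      exact ⟨d, e1, e2, e4⟩)
  obtain ⟨w', hw1', hw2', hw3', hw4'⟩ := extreme (fun z => -(pos h z)) (Ge G (some p))
    (fun z => Sim G (some p) a z) X v hfin
    (fun z z' c g1 g2 g3 => by
      rw [F2 z z' c (hC _ g1) (hC _ g2) (hC _ g3)]
      rw [show (-pos h c - -pos h z) * (-pos h c - -pos h z') =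
        (pos h c - pos h z) * (pos h c - pos h z') by ring])
    (fun z z' g1 g2 g3 => F3 z z' (hC _ g1) (hC _ g2) (neg_injective g3)) hx1
    (by
      obtain ⟨d, d', e1, e2, e3, e4, e5⟩ := hpath (pos h X)
      have e6 : pos h d = pos h X := by
        rcases eq_or_lt_of_le e4 with e6 | e6
        · exact e6
        · exact absurd ⟨e6, e5⟩ (hx2 d d' e1 e2 e3)
      have e7 := F3 d X (hC _ e2) hXN e6
      rw [e7] at e1
      exact ⟨d', hEs _ _ e1, e3, by linarith⟩)
  -- the two neighbours are translates of each other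
  obtain ⟨γ, hγ, hγX, hγw⟩ : ∃ γ ∈ G, γ • X = X ∧ γ • w = w' := by
    obtain ⟨g, hg, hgg⟩ := ge_iff.1 hw1
    obtain ⟨g', hg', hgg'⟩ := ge_iff.1 hw1'
    have hno := (hAdm p rfl).2
    refine ⟨g' * g⁻¹, G.mul_mem hg' (G.inv_mem hg), ?_⟩
    rcases hgg with ⟨e1, e2⟩ | ⟨e1, e2⟩ <;> rcases hgg' with ⟨e3, e4⟩ | ⟨e3, e4⟩
    · constructor
      · rw [← e2, mul_smul, inv_smul_smul, e4, e2]
      · rw [← e1, mul_smul, inv_smul_smul, e3]
    · exfalso
      apply hno (g⁻¹ * g') (G.mul_mem (G.inv_mem hg) hg')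
      rw [mul_smul, e3, ← e2, inv_smul_smul]
    · exfalso
      apply hno (g'⁻¹ * g) (G.mul_mem (G.inv_mem hg') hg)
      rw [mul_smul, e1, ← e4, inv_smul_smul]
    · constructor
      · rw [← e1, mul_smul, inv_smul_smul, e3, e1]
      · rw [← e2, mul_smul, inv_smul_smul, e4]
  have hww : w ≠ w' := by
    intro e; rw [e] at hw3; linarith
  have hwX : w ≠ X := by
    intro e; rw [e] at hw3; linarith
  have hYX : Y ≠ X := by
    intro e; apply hns1; rw [e]; exact Relation.EqvGen.refl _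
  obtain ⟨k, hk⟩ := parab hγX hγw hww hwX hYX
  have hkG : γ ^ k ∈ G := G.zpow_mem hγ k
  have hkX : γ ^ k • X = X := by
    have e1 : γ ∈ MulAction.stabilizer SLZ X := hγX
    exact Subgroup.zpow_mem _ e1 k
  have hns2 : ¬ Sim G (some p) X (γ ^ k • Y) := by
    intro hcon
    apply hns1
    have := T1 (γ ^ k)⁻¹ (G.inv_mem hkG) _ _ hcon
    rwa [inv_smul_smul, inv_smul_eq_iff.2 hkX.symm] at this
  have hnc2 := T2 _ hkG _ _ hnc1
  rw [hkX] at hnc2
  have hside2 := hside1 _ hkG
  rw [hkX] at hside2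
  generalize γ ^ k • Y = Y' at *
  rcases hk with hk | hk
  · apply hns2
    rw [hk]
    exact Relation.EqvGen.symm _ _ (Relation.EqvGen.rel _ _ hw1)
  have hYN : 0 < side h a * side h Y' := by
    have e1 : 0 < side h X * side h a := by rw [mul_comm]; exact hXN
    exact same_side e1 hside2
  have hYC : ¬ Sim G (some p) a Y' := by
    intro hcon
    exact hns2 (Relation.EqvGen.trans _ _ _ (Relation.EqvGen.symm _ _ hx1) hcon)
  rw [F4 X Y' w w' hXN hYN (hC _ hw2) (hC _ hw2')] at hk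
  -- an edge over `Y'`
  obtain ⟨d, d', e1, e2, e3, e4, e5⟩ := hpath (pos h Y')
  have e6 : pos h d < pos h Y' := by
    rcases eq_or_lt_of_le e4 with e6 | e6
    · exact absurd (F3 d Y' (hC _ e2) hYN e6 ▸ e2) hYC
    · exact e6
  have e7 := hnc2 d d' e1
  rw [F4 X Y' d d' hXN hYN (hC _ e2) (hC _ e3)] at e7
  have e8 := hx2 d d' e1 e2 e3
  have e9 : pos h X = pos h d ∨ pos h X = pos h d' := by
    by_contra hcon
    push Not at hcon
    have f1 : pos h X - pos h d < 0 ∨ 0 < pos h X - pos h d := by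
      rcases lt_or_gt_of_ne hcon.1 with q | q
      · left; linarith
      · right; linarith
    have f2 : pos h X - pos h d' < 0 ∨ 0 < pos h X - pos h d' := by
      rcases lt_or_gt_of_ne hcon.2 with q | q
      · left; linarith
      · right; linarith
    have g2 : 0 < pos h Y' - pos h d := by linarith
    have g3 : pos h Y' - pos h d' < 0 := by linarith
    rcases f1 with f1 | f1
    · rcases f2 with f2 | f2
      · exact e7 (mul_neg_of_neg_of_pos (mul_neg_of_neg_of_pos f1 g2)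
          (mul_pos_of_neg_of_neg f2 g3))
      · linarith
    · rcases f2 with f2 | f2
      · exact e8 ⟨by linarith, by linarith⟩
      · exact e7 (mul_neg_of_pos_of_neg (mul_pos f1 g2) (mul_neg_of_pos_of_neg f2 g3))
  have hout : pos h Y' < pos h w ∨ pos h w' < pos h Y' := by
    by_contra hcon
    push Not at hcon
    have g2 : 0 ≤ (pos h X - pos h w) * (pos h Y' - pos h w) :=
      mul_nonneg (by linarith) (by linarith)
    have g3 : 0 ≤ (pos h X - pos h w') * (pos h Y' - pos h w') :=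
      mul_nonneg_of_nonpos_of_nonpos (by linarith) (by linarith)
    have := mul_nonneg g2 g3
    linarith
  rcases hout with ho | ho
  · rcases e9 with e9 | e9
    · linarith
    · have := F3 X d' hXN (hC _ e3) e9
      rw [← this] at e1
      have := hw4 d e1 e2
      linarith
  · rcases e9 with e9 | e9
    · have := F3 X d hXN (hC _ e2) e9
      rw [← this] at e1
      have := hw4' d' (hEs _ _ e1) e3
      linarith
    · linarith

end Pool.Agent.Lib.MP_eee7a8_ag.TB.PB.H65
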